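import Pool.Agent.Helper84.Kos.Goals

/-! Packet K-T1b of MP_315210_al: long products of sandwich operators vanish. -/

namespace Pool.Agent.Helper77.Kos

open LieAlgebra Pool.Agent.Helper84.Kos

/-! ### The relation `FD` -/

section words

variable {A : Type*} [LinearOrder A]

lemma FD_nil_left (y : List A) : ¬ FD ([] : List A) y := by
  rintro ⟨p, a, b, x, y', h, -, -⟩
  simp at h

lemma FD_nil_right (x : List A) : ¬ FD x ([] : List A) := by
  rintro ⟨p, a, b, x, y', -, h, -⟩
  simp at h

lemma FD_cons {a b : A} {x y : List A} : FD (a :: x) (b :: y) ↔ a < b ∨ (a = b ∧ FD x y) := by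
  constructor
  · rintro ⟨p, c, d, x', y', h1, h2, h⟩
    cases p with
    | nil =>
      simp only [List.nil_append, List.cons.injEq] at h1 h2
      left
      rw [h1.1, h2.1]
      exact h
    | cons e p =>
      simp only [List.cons_append, List.cons.injEq] at h1 h2
      right
      exact ⟨h1.1.trans h2.1.symm, p, c, d, x', y', h1.2, h2.2, h⟩
  · rintro (h | ⟨rfl, p, c, d, x', y', h1, h2, h⟩)
    · exact ⟨[], a, b, x, y, rfl, rfl, h⟩
    · exact ⟨a :: p, c, d, x', y', by rw [h1]; rfl, by rw [h2]; rfl, h⟩

lemma FD_irrefl (u : List A) : ¬ FD u u := by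
  induction u with
  | nil => exact FD_nil_left _
  | cons a u ih =>
    rw [FD_cons]
    rintro (h | ⟨-, h⟩)
    · exact lt_irrefl _ h
    · exact ih h

lemma FD_trans {u v w : List A} (h1 : FD u v) (h2 : FD v w) : FD u w := by
  induction u generalizing v w with
  | nil => exact absurd h1 (FD_nil_left _)
  | cons a u ih =>
    cases v with
    | nil => exact absurd h1 (FD_nil_right _)
    | cons b v =>
      cases w with
      | nil => exact absurd h2 (FD_nil_right _)
      | cons c w =>
        rw [FD_cons] at h1 h2 ⊢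
        rcases h1 with h1 | ⟨rfl, h1⟩
        · rcases h2 with h2 | ⟨rfl, h2⟩
          · exact Or.inl (h1.trans h2)
          · exact Or.inl h1
        · rcases h2 with h2 | ⟨rfl, h2⟩
          · exact Or.inl h2
          · exact Or.inr ⟨rfl, ih h1 h2⟩

lemma FD_append {u v : List A} (h : FD u v) (x y : List A) : FD (u ++ x) (v ++ y) := by
  obtain ⟨p, a, b, x', y', rfl, rfl, hab⟩ := h
  exact ⟨p, a, b, x' ++ x, y' ++ y, by simp, by simp, hab⟩

lemma FD_append_left {u v : List A} (z : List A) (h : FD u v) : FD (z ++ u) (z ++ v) := by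
  obtain ⟨p, a, b, x', y', rfl, rfl, hab⟩ := h
  exact ⟨z ++ p, a, b, x', y', by simp, by simp, hab⟩

lemma lt_iff_FD {x y : List A} : x < y ↔ FD x y ∨ (x <+: y ∧ x ≠ y) := by
  induction x generalizing y with
  | nil =>
    cases y with
    | nil => simp [FD_nil_left]
    | cons b y => simp
  | cons a x ih =>
    cases y with
    | nil => simp [FD_nil_right]
    | cons b y =>
      rw [List.cons_lt_cons_iff, FD_cons, ih, List.cons_prefix_cons]
      constructor
      · rintro (h | ⟨rfl, h | ⟨h, h'⟩⟩)
        · exact Or.inl (Or.inl h)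
        · exact Or.inl (Or.inr ⟨rfl, h⟩)
        · exact Or.inr ⟨⟨rfl, h⟩, by simpa using h'⟩
      · rintro ((h | ⟨rfl, h⟩) | ⟨⟨rfl, h⟩, h'⟩)
        · exact Or.inl h
        · exact Or.inr ⟨rfl, Or.inl h⟩
        · exact Or.inr ⟨rfl, Or.inr ⟨h, by simpa using h'⟩⟩

lemma FD_split {v s w w' : List A} (hlen : s.length ≤ v.length) (h : FD (v ++ w) (s ++ w')) :
    FD v s ∨ ∃ t, v = s ++ t ∧ FD (t ++ w) w' := by
  induction s generalizing v with
  | nil => exact Or.inr ⟨v, rfl, h⟩
  | cons b s ih =>
    cases v with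
    | nil => simp at hlen
    | cons a v =>
      rw [List.cons_append, List.cons_append, FD_cons] at h
      rcases h with h | ⟨rfl, h⟩
      · exact Or.inl (FD_cons.2 (Or.inl h))
      · rcases ih (by simpa using hlen) h with h | ⟨t, rfl, ht⟩
        · exact Or.inl (FD_cons.2 (Or.inr ⟨rfl, h⟩))
        · exact Or.inr ⟨t, rfl, ht⟩

/-- the standard factorisation of a Lyndon word -/
lemma lyn_factor {u : List A} (hu : IsLyn u) (hlen : 2 ≤ u.length) :
    ∃ v w : List A, IsLyn v ∧ IsLyn w ∧ u = v ++ w ∧ FD u w := by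
  classical
  set S : Finset (List A) := (u.tail.tails.toFinset).erase [] with hS
  have hmem : ∀ w : List A, w ∈ S ↔ w ≠ [] ∧ w <:+ u.tail := by
    intro w
    rw [hS, Finset.mem_erase, List.mem_toFinset, List.mem_tails]
  have hmem' : ∀ w : List A, w ∈ S ↔ w ≠ [] ∧ ∃ p, p ≠ [] ∧ u = p ++ w := by
    intro w
    rw [hmem]
    refine and_congr_right (fun _ => ?_)
    cases u with
    | nil => simp at hlen
    | cons a u =>
      constructor
      · rintro ⟨t, ht⟩
        exact ⟨a :: t, by simp, by rw [List.cons_append, ht]; rfl⟩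
      · rintro ⟨p, hp, h⟩
        cases p with
        | nil => exact absurd rfl hp
        | cons b p =>
          rw [List.cons_append, List.cons.injEq] at h
          exact ⟨p, h.2.symm⟩
  have hne : S.Nonempty := by
    refine ⟨u.tail, (hmem _).2 ⟨?_, List.suffix_rfl⟩⟩
    intro h
    have h1 := congrArg List.length h
    rw [List.length_tail, List.length_nil] at h1
    omega
  obtain ⟨w, hwS, hwmin⟩ := S.exists_min_image id hne
  obtain ⟨hw0, v, hv0, huv⟩ := (hmem' w).1 hwS
  have hmin : ∀ s p : List A, s ≠ [] → p ≠ [] → u = p ++ s → w ≤ s := fun s p hs hp h =>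
    hwmin s ((hmem' s).2 ⟨hs, p, hp, h⟩)
  refine ⟨v, w, ⟨hv0, ?_⟩, ⟨hw0, ?_⟩, huv, hu.2 v w hv0 hw0 huv⟩
  · intro p s hp hs hv
    have h1 : u = p ++ (s ++ w) := by rw [huv, hv, List.append_assoc]
    have h2 := hu.2 p (s ++ w) hp (by simp [hs]) h1
    have hps : s.length < v.length := by
      rw [hv, List.length_append]
      have := List.length_pos_iff.2 hp
      omega
    rw [huv] at h2
    rcases FD_split hps.le h2 with h3 | ⟨t, ht, h3⟩
    · exact h3
    · have h4 : w ≤ t ++ w := hmin _ s (by simp [hw0]) hs (by rw [huv, ht, List.append_assoc])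
      have h5 : t ++ w < w := lt_iff_FD.2 (Or.inl h3)
      exact absurd h4 (not_le.2 h5)
  · intro p s hp hs hw
    have h1 : w ≤ s := hmin s (v ++ p) hs (by simp [hv0]) (by rw [huv, hw, List.append_assoc])
    have hps : s.length < w.length := by
      rw [hw, List.length_append]
      have := List.length_pos_iff.2 hp
      omega
    have h2 : w < s := by
      refine lt_of_le_of_ne h1 ?_
      rintro rfl
      exact lt_irrefl _ hps
    rcases lt_iff_FD.1 h2 with h3 | ⟨h3, -⟩
    · exact h3
    · have := h3.length_le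
      omega

end words

/-! ### Leading words -/

section lead

variable {L : Type} [LieRing L] [LieAlgebra ℚ L] {A : Type} [LinearOrder A] (s : A → L)

/-- the operator of a word -/
noncomputable def op (w : List A) : Module.End ℚ L := (w.map (fun a => ad ℚ L (s a))).prod

omit [LinearOrder A] in
lemma op_append (u v : List A) : op s (u ++ v) = op s u * op s v := by
  rw [op, op, op, List.map_append, List.prod_append]

/-- the span of the operators of the larger words of the same length -/
noncomputable def big (u : List A) : Submodule ℚ (Module.End ℚ L) :=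
  Submodule.span ℚ (op s '' {w | w.length = u.length ∧ FD u w})

/-- the span of all operators of words of the same length -/
noncomputable def all (u : List A) : Submodule ℚ (Module.End ℚ L) :=
  Submodule.span ℚ (op s '' {w | w.length = u.length})

lemma op_mem_big {u w : List A} (h1 : w.length = u.length) (h2 : FD u w) : op s w ∈ big s u :=
  Submodule.subset_span ⟨w, ⟨h1, h2⟩, rfl⟩

lemma big_le_all (u : List A) : big s u ≤ all s u :=
  Submodule.span_mono (Set.image_mono (fun _ h => h.1))

lemma big_mono {u v : List A} (h1 : v.length = u.length) (h2 : FD u v) : big s v ≤ big s u := by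
  refine Submodule.span_mono (Set.image_mono ?_)
  rintro w ⟨h3, h4⟩
  exact ⟨h3.trans h1, FD_trans h2 h4⟩

/-- `X` has leading word `u`. -/
def Lead (u : List A) (X : Module.End ℚ L) : Prop := X - op s u ∈ big s u

lemma Lead.mem_all {u : List A} {X : Module.End ℚ L} (h : Lead s u X) : X ∈ all s u := by
  have h1 : X = (X - op s u) + op s u := by abel
  rw [h1]
  exact Submodule.add_mem _ (big_le_all s u h) (Submodule.subset_span ⟨u, rfl, rfl⟩)

lemma lead_op (u : List A) : Lead s u (op s u) := by
  rw [Lead, sub_self]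
  exact Submodule.zero_mem _

lemma big_mul_all {u v : List A} {X Y : Module.End ℚ L} (hX : X ∈ big s u) (hY : Y ∈ all s v) :
    X * Y ∈ big s (u ++ v) := by
  have h := Submodule.mul_mem_mul hX hY
  rw [big, all, Submodule.span_mul_span] at h
  refine Submodule.span_mono ?_ h
  rintro _ ⟨_, ⟨w, hw, rfl⟩, _, ⟨w', hw', rfl⟩, rfl⟩
  refine ⟨w ++ w', ⟨?_, FD_append hw.2 _ _⟩, op_append s w w'⟩
  rw [List.length_append, List.length_append, hw.1, hw']

lemma op_mul_big {u v : List A} {Y : Module.End ℚ L} (hY : Y ∈ big s v) :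
    op s u * Y ∈ big s (u ++ v) := by
  have h := Submodule.mul_mem_mul (Submodule.mem_span_singleton_self (R := ℚ) (op s u)) hY
  rw [big, Submodule.span_mul_span] at h
  refine Submodule.span_mono ?_ h
  rintro _ ⟨_, rfl, _, ⟨w', hw', rfl⟩, rfl⟩
  refine ⟨u ++ w', ⟨?_, FD_append_left _ hw'.2⟩, op_append s u w'⟩
  rw [List.length_append, List.length_append, hw'.1]

lemma Lead.mul {u v : List A} {X Y : Module.End ℚ L} (hX : Lead s u X) (hY : Lead s v Y) :
    Lead s (u ++ v) (X * Y) := by
  have h : X * Y - op s (u ++ v) = (X - op s u) * Y + op s u * (Y - op s v) := by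
    rw [op_append]
    noncomm_ring
  rw [Lead, h]
  exact Submodule.add_mem _ (big_mul_all s hX hY.mem_all) (op_mul_big s hY)

lemma ad_lie_eq (c d : L) :
    ad ℚ L ⁅c, d⁆ = ad ℚ L c * ad ℚ L d - ad ℚ L d * ad ℚ L c := by
  ext x
  simp only [ad_apply, LinearMap.sub_apply, Module.End.mul_apply]
  exact lie_lie c d x

lemma lead_lyn (C : Set L) (hs : ∀ a, s a ∈ C) (hC : ∀ c ∈ C, ∀ d ∈ C, ⁅c, d⁆ ∈ C) :
    ∀ (n : ℕ) (u : List A), u.length = n → IsLyn u → ∃ c ∈ C, Lead s u (ad ℚ L c) := by
  intro n
  induction n using Nat.strong_induction_on with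
  | _ n ih =>
    intro u hn hu
    rcases Nat.lt_or_ge u.length 2 with h | h
    · have h0 := List.length_pos_iff.2 hu.1
      obtain ⟨a, rfl⟩ := List.length_eq_one_iff.1 (show u.length = 1 by omega)
      refine ⟨s a, hs a, ?_⟩
      have : op s [a] = ad ℚ L (s a) := by simp [op]
      rw [← this]
      exact lead_op s _
    · obtain ⟨v, w, hv, hw, huv, hfd⟩ := lyn_factor hu h
      have hvl := List.length_pos_iff.2 hv.1
      have hwl := List.length_pos_iff.2 hw.1
      have hul : u.length = v.length + w.length := by rw [huv, List.length_append]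
      obtain ⟨c, hc, hcv⟩ := ih v.length (by omega) v rfl hv
      obtain ⟨d, hd, hdw⟩ := ih w.length (by omega) w rfl hw
      refine ⟨⁅c, d⁆, hC c hc d hd, ?_⟩
      have h1 : Lead s (v ++ w) (ad ℚ L c * ad ℚ L d) := hcv.mul s hdw
      have h2 : Lead s (w ++ v) (ad ℚ L d * ad ℚ L c) := hdw.mul s hcv
      have hfd' : FD (v ++ w) (w ++ v) := by
        have := FD_append (huv ▸ hfd) [] v
        rwa [List.append_nil] at this
      have hlen : (w ++ v).length = (v ++ w).length := by
        rw [List.length_append, List.length_append, add_comm]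
      rw [huv]
      have h3 : ad ℚ L ⁅c, d⁆ - op s (v ++ w) = (ad ℚ L c * ad ℚ L d - op s (v ++ w)) -
          ((ad ℚ L d * ad ℚ L c - op s (w ++ v)) + op s (w ++ v)) := by
        rw [ad_lie_eq]
        abel
      rw [Lead, h3]
      exact Submodule.sub_mem _ h1 (Submodule.add_mem _ (big_mono s hlen hfd' h2)
        (op_mem_big s hlen hfd'))

end lead

/-- Packet K-T1b. -/
theorem stmtT1b (h : StmtT1a) : StmtT1b := by
  intro L _ _ A _ _ s C hs hC hC1 hC2
  obtain ⟨n, hn⟩ := h A
  refine ⟨n, ?_⟩
  -- every long word is a combination of larger ones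
  have hred : ∀ w : List A, n ≤ w.length → op s w ∈ big s w := by
    intro w hw
    obtain ⟨u, z, hu, hz, hsub⟩ := hn w hw
    obtain ⟨c, hc, hcu⟩ := lead_lyn s C hs hC u.length u rfl hu
    obtain ⟨d, hd, hdz⟩ := lead_lyn s C hs hC z.length z rfl hz
    have key : ∀ y : List A, Lead s y 0 → y <:+: w → op s w ∈ big s w := by
      rintro y hy ⟨p, q, hpq⟩
      have h1 := ((lead_op s p).mul s hy).mul s (lead_op s q)
      rw [mul_zero, zero_mul, hpq, Lead, zero_sub] at h1
      exact (Submodule.neg_mem_iff _).1 h1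
    rcases hsub with h1 | h1
    · refine key (u ++ u) ?_ h1
      have h2 := hcu.mul s hcu
      rwa [hC1 c hc] at h2
    · refine key (u ++ z ++ u) ?_ h1
      have h2 := (hcu.mul s hdz).mul s hcu
      rwa [hC2 c hc d] at h2
  -- induction on the number of larger words
  have hmain : ∀ (m : ℕ) (w : List A), n ≤ w.length →
      {w' : List A | w'.length = w.length ∧ FD w w'}.ncard = m → op s w = 0 := by
    intro m
    induction m using Nat.strong_induction_on with
    | _ m ih =>
      intro w hw hm
      have hfin : {w' : List A | w'.length = w.length ∧ FD w w'}.Finite :=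
        (List.finite_length_eq A w.length).subset (fun _ h => h.1)
      have h1 := hred w hw
      have h2 : big s w = ⊥ := by
        rw [big, Submodule.span_eq_bot]
        rintro _ ⟨w', hw', rfl⟩
        refine ih _ ?_ w' (by rw [hw'.1]; exact hw) rfl
        rw [← hm]
        refine Set.ncard_lt_ncard ⟨?_, ?_⟩ hfin
        · rintro x ⟨hx1, hx2⟩
          exact ⟨hx1.trans hw'.1, FD_trans hw'.2 hx2⟩
        · intro hsub
          exact FD_irrefl _ (hsub hw').2
      rw [h2] at h1
      exact (Submodule.mem_bot ℚ).1 h1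
  intro w hw
  exact hmain _ w hw rfl

end Pool.Agent.Helper77.Kos
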